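import Pool.Agent.Helper26_BSN.FactW

/-!
# BSN: SND (soundness of forcing by finite sets of literals compatible with `c`)
-/

namespace Pool.Agent.BSN.H1

open Filter Cardinal Pool.Agent.BSig Pool.Agent.BSN

/-! ## Combinatorics of conflicts -/

section Comb

variable {X : Type}

theorem conf_symm {A B : Set (X × Bool)} (h : Conf A B) : Conf B A := by
  obtain ⟨x, b, h1, h2⟩ := h
  exact ⟨x, !b, h2, by rw [Bool.not_not]; exact h1⟩

theorem conf_mono {A B A' B' : Set (X × Bool)} (hA : A ⊆ A') (hB : B ⊆ B') (h : Conf A B) :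
    Conf A' B' := by
  obtain ⟨x, b, h1, h2⟩ := h
  exact ⟨x, b, hA h1, hB h2⟩

theorem consis_union {A B c : Set (X × Bool)} (hA : Consis A) (hB : B ⊆ c) (hc : Consis c)
    (hAc : ¬ Conf A c) : Consis (B ∪ A) := by
  rintro ⟨x, b, h1 | h1, h2 | h2⟩
  · exact hc ⟨x, b, hB h1, hB h2⟩
  · exact hAc (conf_symm ⟨x, b, hB h1, h2⟩)
  · exact hAc ⟨x, b, h1, hB h2⟩
  · exact hA ⟨x, b, h1, h2⟩

end Comb

variable {τ : Tower}

theorem zero_ne_one' : (0 : (MMt τ)) ≠ 1 := by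
  intro h
  rw [mk_zero, mk_one, mk_eq] at h
  obtain ⟨n, hn⟩ := h.exists
  omega

theorem fact0 {A : Set (MMt τ)} {K : (MMt τ)} (h : Fact A (2 * K)) {z : (MMt τ)} (hz : Mem z K) : z ∉ A := by
  have h' : Fact A (2 * K + 0) := by rw [add_zero]; exact h
  rw [H3.fact_iff A (Or.inl rfl)] at h'
  rcases h' hz with h1 | h1
  · exact absurd h1.1 zero_ne_one'
  · exact h1.2

theorem fact1 {A : Set (MMt τ)} {K : (MMt τ)} (h : Fact A (2 * K + 1)) {z : (MMt τ)} (hz : Mem z K) : z ∈ A := by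
  rw [H3.fact_iff A (Or.inr rfl)] at h
  rcases h hz with h1 | h1
  · exact h1.2
  · exact absurd h1.1 (Ne.symm zero_ne_one')

theorem contra_false {A : Set (MMt τ)} {t t' : (MMt τ)} (h : Contra t t') (h1 : Fact A t)
    (h2 : Fact A t') : False := by
  obtain ⟨K, _, K', _, h3, z, _, hz, hz'⟩ := h
  rcases h3 with ⟨rfl, rfl⟩ | ⟨rfl, rfl⟩
  · exact fact0 h1 hz (fact1 h2 hz')
  · exact fact0 h2 hz' (fact1 h1 hz)

theorem fact_of_forces (hK : LemmaK) (hF : FamFresh τ) {φ : (Fin 5 → (MMt τ)) → Prop}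
    (hφ : IsDelta0 φ) {A : Set (MMt τ)} {c : Set ((MMt τ) × Bool)} (hc : Unb τ φ A c)
    (k : ℕ) (R : Finset ((MMt τ) × Bool)) (t : (MMt τ)) (hR : Consis (R : Set ((MMt τ) × Bool)))
    (hRc : ¬ Conf (R : Set ((MMt τ) × Bool)) c) (hf : Forces φ k R t) : Fact A t := by
  classical
  obtain ⟨hcc, hcard, h3, -⟩ := hc
  by_contra hA
  obtain ⟨s, hs, hk⟩ := hK (MMt τ) k (Fam φ k t) (fun F hF => hF.1) (hF φ hφ k t) c hcard
    (fun F hF => by
      by_contra hn
      exact hA (h3 k t F hF hn))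
  have hcons : Consis ((s ∪ R : Finset ((MMt τ) × Bool)) : Set ((MMt τ) × Bool)) := by
    rw [Finset.coe_union]
    exact consis_union hR hs hcc hRc
  obtain ⟨F, hFm, hn⟩ := hf (s ∪ R) hcons Finset.subset_union_right
  exact hn (conf_mono (fun _ h => h) (by rw [Finset.coe_union]; exact Set.subset_union_left)
    (hk F hFm))

theorem snd (hD : LemmaD) (hK : LemmaK) (hF : FamFresh τ) : SoundStmt τ := by
  intro φ hφ A c hc
  have h1 := fun k R t h1 h2 h3 => fact_of_forces hK hF hφ hc k R t h1 h2 h3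
  refine ⟨h1, ?_, ?_⟩
  · intro t ht
    obtain ⟨hcc, -, -, h4⟩ := hc
    obtain ⟨k, hk⟩ := h4 t ht
    obtain ⟨r, hr, hr2⟩ := hD (MMt τ) k (Fam φ k t) (fun F hF => hF.1) c hcc hk
    exact ⟨k, r, hr, hr2⟩
  · rintro k q ⟨R, R', t, t', -, -, hR, hR', hf, hf', hct, hq⟩
    by_contra hn
    have ha : ¬ Conf (R : Set ((MMt τ) × Bool)) c := fun h =>
      hn (conf_mono (by rw [hq]; exact Set.subset_union_left) (fun _ h => h) h)
    have hb : ¬ Conf (R' : Set ((MMt τ) × Bool)) c := fun h =>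
      hn (conf_mono (by rw [hq]; exact Set.subset_union_right) (fun _ h => h) h)
    exact contra_false hct (h1 k R t hR ha hf) (h1 k R' t' hR' hb hf')

end Pool.Agent.BSN.H1
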